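import Pool.Agent.H.MP_217de7_gt.I

set_option autoImplicit false

namespace Pool.Agent.Results.MP_fe925f_an.NonHilbert

open Set MeasureTheory Pool.Agent.H.MP_217de7_gt

theorem emb {M : ℝ → ℝ → ℝ} (h : Rep M) {H : Type} [NormedAddCommGroup H] [InnerProductSpace ℝ H]
    (b : HilbertBasis ℕ ℝ H) : ∃ J : H × ℝ →L[ℝ] Lp ℝ 1 (volume : Measure unitInterval),
      ∀ x t, ‖J (x, t)‖ = M ‖x‖ t := by
  obtain ⟨v, c, h1, h2⟩ := h.seq ℕ
  obtain ⟨U, hU⟩ : ∃ U : Lp ℝ 1 (volume : Measure unitInterval), U =ᵐ[volume] fun _ => c :=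
    ⟨_, (integrable_const c).coeFn_toL1⟩
  have key : ∀ (s : Finset ℕ) (a : ℕ → ℝ) (t : ℝ),
      ‖∑ i ∈ s, a i • (h1 i).toL1 _ + t • U‖ = M √(∑ i ∈ s, a i ^ 2) t := fun s a t => by
    rw [L1.norm_eq_integral_norm, ← h2]
    refine integral_congr_ae ?_
    filter_upwards [Lp.coeFn_add (∑ i ∈ s, a i • (h1 i).toL1 _) (t • U), Lp.coeFn_smul t U, hU,
      Lp.coeFn_finsetSum s fun i => a i • (h1 i).toL1 _,
      ae_all_iff.2 fun i => Lp.coeFn_smul (a i) ((h1 i).toL1 _),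
      ae_all_iff.2 fun i => (h1 i).coeFn_toL1] with w e1 e2 e3 e4 e5 e6
    rw [e1, Pi.add_apply, e2, e4, Finset.sum_apply]
    simp only [e3, e5, e6, add_comm, Pi.smul_apply, smul_eq_mul, Real.norm_eq_abs]
  have one : ∀ r t, 0 ≤ r → M r t = ‖r • (h1 0).toL1 _ + t • U‖ := fun r t hr => by
    simpa [Real.sqrt_sq hr] using (key {0} (fun _ => r) t).symm
  let f := Finsupp.linearCombination ℝ fun i => (h1 i).toL1 _
  let e := Finsupp.linearCombination ℝ b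
  have he : DenseRange e := by
    rw [DenseRange, ← LinearMap.coe_range, Finsupp.range_linearCombination,
      Submodule.dense_iff_topologicalClosure_eq_top, b.dense_span]
  have n1 : ∀ a t, ‖f a + t • U‖ = M ‖e a‖ t := fun a t => by
    rw [norm_eq_sqrt_real_inner (e a), b.orthonormal.inner_finsupp_eq_sum_left]
    simpa [f, Finsupp.linearCombination_apply, Finsupp.sum, sq] using key a.support a t
  have n2 : ∃ C, ∀ a, ‖f a‖ ≤ C * ‖e a‖ := ⟨‖(h1 0).toL1 _‖, fun a => by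
    have := (n1 a 0).trans (one _ _ (norm_nonneg _))
    simp only [zero_smul, add_zero, norm_smul, norm_norm] at this
    exact this.trans_le (mul_comm _ _).le⟩
  refine ⟨(f.extendOfNorm e).coprod ((ContinuousLinearMap.id ℝ ℝ).smulRight U), fun x t => ?_⟩
  rw [one _ _ (norm_nonneg x)]
  refine he.induction_on x (isClosed_eq (by fun_prop) (by fun_prop)) fun a => ?_
  simp [LinearMap.extendOfNorm_eq he n2, n1, one]

theorem dual {M M' : ℝ → ℝ → ℝ} (d : Dual M M') {H X L : Type} [NormedAddCommGroup H]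
    [InnerProductSpace ℝ H] [CompleteSpace H] [Nontrivial H] [NormedAddCommGroup X] [NormedSpace ℝ X]
    [NormedAddCommGroup L] [NormedSpace ℝ L] {K : H × ℝ →L[ℝ] X} {J : H × ℝ →L[ℝ] L}
    (hs : Function.Surjective K) (hK : ∀ x t, ‖K (x, t)‖ = M ‖x‖ t)
    (hJ : ∀ x t, ‖J (x, t)‖ = M' ‖x‖ t) : Nonempty (StrongDual ℝ X →ₗᵢ[ℝ] L) := by
  obtain ⟨d1, d2⟩ := d.lift (H := H)
  refine ⟨⟨⟨⟨fun φ => J ((InnerProductSpace.toDual ℝ _).symm (φ ∘L K ∘L .inl ℝ _ _), φ (K (0, 1))),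
      fun φ ψ => ?_⟩, fun c φ => ?_⟩, fun φ => ?_⟩⟩
  · rw [← map_add, ContinuousLinearMap.add_comp, map_add]
    rfl
  · dsimp only
    rw [← map_smul, ContinuousLinearMap.smul_comp, LinearIsometryEquiv.map_smulₛₗ]
    rfl
  · obtain ⟨z, hz⟩ : ∃ z, z = (InnerProductSpace.toDual ℝ _).symm (φ ∘L K ∘L .inl ℝ _ _) := ⟨_, rfl⟩
    have e : ∀ x t, φ (K (x, t)) = inner ℝ x z + t * φ (K (0, 1)) := fun x t => by
      rw [real_inner_comm, hz, InnerProductSpace.toDual_symm_apply, ← smul_eq_mul, ← map_smul,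
        ← map_smul]
      simp [← map_add]
    have u : ∀ w, φ w ≤ ‖J (z, φ (K (0, 1)))‖ * ‖w‖ := fun w => by
      obtain ⟨⟨x, t⟩, rfl⟩ := hs w
      exact ((e x t).trans_le (d1 _ _ _ _)).trans_eq (by rw [hJ, hK, mul_comm])
    refine (congrArg (fun z => ‖J (z, _)‖) hz.symm).trans (le_antisymm ?_
      (φ.opNorm_le_bound (norm_nonneg _) fun w => abs_le.2 ⟨?_, u w⟩))
    · obtain ⟨x, t, p, p'⟩ := d2 z (φ (K (0, 1)))
      rw [hJ, ← p', ← e]
      exact (le_abs_self _).trans ((φ.le_opNorm _).trans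
        (mul_le_of_le_one_right (norm_nonneg _) (hK x t ▸ p)))
    · simpa [neg_le] using u (-w)

theorem anti {M M' : ℝ → ℝ → ℝ} (d : Dual M M') {H L : Type} [NormedAddCommGroup H]
    [InnerProductSpace ℝ H] [Nontrivial H] [NormedAddCommGroup L] [NormedSpace ℝ L]
    {J J' : H × ℝ →L[ℝ] L} (hJ : ∀ x t, ‖J (x, t)‖ = M ‖x‖ t)
    (hJ' : ∀ x t, ‖J' (x, t)‖ = M' ‖x‖ t) : AntilipschitzWith ‖J'‖₊ J :=
  J.antilipschitz_of_bound fun p => by
    have := d.lift.1 p.1 p.1 p.2 p.2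
    rw [← hJ, ← hJ', real_inner_self_eq_norm_sq] at this
    have q : ‖p‖ ^ 2 ≤ ‖p.1‖ ^ 2 + p.2 * p.2 := by
      rw [Prod.norm_def, ← sq, ← sq_abs p.2, ← Real.norm_eq_abs]
      rcases max_choice ‖p.1‖ ‖p.2‖ with h | h <;> rw [h] <;> nlinarith
    have := (q.trans this).trans (mul_le_mul_of_nonneg_left (J'.le_opNorm p) (norm_nonneg _))
    have p0 : 0 ≤ ‖J'‖ * ‖J p‖ := by positivity
    exact not_lt.1 fun g => by simp only [coe_nnnorm] at g; nlinarith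

theorem result.{u} : ∃ (X : Type) (_ : NormedAddCommGroup X) (_ : NormedSpace ℝ X),
    CompleteSpace X ∧ ¬ FiniteDimensional ℝ X ∧
    Nonempty (X →ₗᵢ[ℝ] Lp ℝ 1 (volume : Measure unitInterval)) ∧
    Nonempty (StrongDual ℝ X →ₗᵢ[ℝ] Lp ℝ 1 (volume : Measure unitInterval)) ∧
    ∀ (H : Type u) [NormedAddCommGroup H] [InnerProductSpace ℝ H], IsEmpty (X ≃ₗᵢ[ℝ] H) := by
  obtain ⟨M, M', r, r', d, -, y, hy⟩ := planar
  let b : HilbertBasis ℕ ℝ (lp (fun _ : ℕ => ℝ) 2) := default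
  have n0 : ‖b 0‖ = 1 := b.orthonormal.1 0
  have : Nontrivial (lp (fun _ : ℕ => ℝ) 2) := ⟨b 0, 0, norm_ne_zero_iff.1 (n0 ▸ one_ne_zero)⟩
  obtain ⟨J, hJ⟩ := emb r b
  obtain ⟨J', hJ'⟩ := emb r' b
  have al := anti d hJ hJ'
  obtain ⟨K, hK'⟩ : ∃ K : lp (fun _ : ℕ => ℝ) 2 × ℝ →L[ℝ] J.range, ∀ p, (K p).1 = J p :=
    ⟨J.rangeRestrict, fun _ => rfl⟩
  have hK : ∀ x t, ‖K (x, t)‖ = M ‖x‖ t := fun x t => (congrArg norm (hK' _)).trans (hJ x t)
  refine ⟨J.range, inferInstance, inferInstance,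
    (al.isClosed_range J.uniformContinuous).completeSpace_coe, fun _ => ?_, ⟨J.range.subtypeₗᵢ⟩,
    dual d (fun ⟨_, p, hp⟩ => ⟨p, Subtype.ext ((hK' p).trans hp)⟩) hK hJ', fun H _ _ => ⟨fun T => ?_⟩⟩
  · exact Module.Finite.not_linearIndependent_of_infinite _ (b.orthonormal.linearIndependent.map'
      (K.toLinearMap ∘ₗ .inl ℝ _ _) (LinearMap.ker_eq_bot.2 fun _ _ h => congrArg Prod.fst
        (al.injective ((hK' _).symm.trans ((congrArg Subtype.val h).trans (hK' _))))))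
  · have := parallelogram_law_with_norm ℝ (T (K (b 0, 0))) (T (K (0, y)))
    rw [← map_add, ← map_sub, ← map_add, ← map_sub, T.norm_map, T.norm_map, T.norm_map, T.norm_map,
      Prod.mk_add_mk, Prod.mk_sub_mk, hK, hK, hK, hK, add_zero, zero_add, sub_zero, zero_sub, n0,
      norm_zero] at this
    nlinarith

end Pool.Agent.Results.MP_fe925f_an.NonHilbert
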